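import Pool.Agent.Paving7.Search

set_option autoImplicit false

/-!
Encoding of matroids on `Fin 7` by 128-bit natural numbers, and the action of transpositions.
-/

namespace Pool.Agent.Paving7

open Set

/-- The subset of `Fin 7` with bit mask `s`. -/
def dec (s : ℕ) : Finset (Fin 7) := Finset.univ.filter (fun i => s.testBit i.val = true)

/-- The bit mask of a subset of `Fin 7`. -/
def enc (S : Finset (Fin 7)) : ℕ := Nat.ofBits (fun i : Fin 7 => decide (i ∈ S))

theorem mem_dec {s : ℕ} {i : Fin 7} : i ∈ dec s ↔ s.testBit i.val = true := by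
  simp [dec]

theorem testBit_enc (S : Finset (Fin 7)) (i : ℕ) :
    (enc S).testBit i = if h : i < 7 then decide ((⟨i, h⟩ : Fin 7) ∈ S) else false := by
  simp [enc, Nat.testBit_ofBits]

theorem dec_enc (S : Finset (Fin 7)) : dec (enc S) = S := by
  ext i
  rw [mem_dec, testBit_enc]
  simp

theorem enc_lt (S : Finset (Fin 7)) : enc S < 128 := by
  have := Nat.ofBits_lt_two_pow (fun i : Fin 7 => decide (i ∈ S))
  simpa [enc] using this

theorem enc_dec {s : ℕ} (hs : s < 128) : enc (dec s) = s := by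
  apply Nat.eq_of_testBit_eq
  intro i
  rw [testBit_enc]
  by_cases h : i < 7
  · simp only [h, dif_pos]
    rw [Bool.eq_iff_iff]
    simp [mem_dec]
  · simp only [h, dif_neg, not_false_eq_true]
    symm
    apply Nat.testBit_lt_two_pow
    calc s < 2 ^ 7 := by simpa using hs
      _ ≤ 2 ^ i := Nat.pow_le_pow_right (by norm_num) (by omega)

open Classical in
/-- The code of a matroid on `Fin 7`: bit `s` says whether the set with mask `s` is independent. -/
noncomputable def code (M : Matroid (Fin 7)) : ℕ :=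
  Nat.ofBits (fun s : Fin 128 => decide (M.Indep (dec s.val : Set (Fin 7))))

theorem testBit_code (M : Matroid (Fin 7)) {s : ℕ} (hs : s < 128) :
    (code M).testBit s = true ↔ M.Indep (dec s : Set (Fin 7)) := by
  classical
  rw [code, Nat.testBit_ofBits_lt _ _ hs]
  simp

theorem testBit_code_ge (M : Matroid (Fin 7)) {s : ℕ} (hs : 128 ≤ s) :
    (code M).testBit s = false := by
  rw [code, Nat.testBit_ofBits_ge _ _ hs]

theorem testBit_code_enc (M : Matroid (Fin 7)) (S : Finset (Fin 7)) :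
    (code M).testBit (enc S) = true ↔ M.Indep (S : Set (Fin 7)) := by
  rw [testBit_code M (enc_lt S), dec_enc]

theorem code_inj {M N : Matroid (Fin 7)} (hM : M.E = univ) (hN : N.E = univ)
    (h : code M = code N) : M = N := by
  apply Matroid.ext_indep (by rw [hM, hN])
  intro I _
  obtain ⟨S, rfl⟩ : ∃ S : Finset (Fin 7), (S : Set (Fin 7)) = I :=
    ⟨I.toFinite.toFinset, by simp⟩
  rw [← testBit_code_enc, ← testBit_code_enc, h]

/-- swapping bits `i` and `j` of a mask -/
def swm (i j : Fin 7) (s : ℕ) : ℕ :=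
  if s.testBit i.val = s.testBit j.val then s else s ^^^ (2 ^ i.val ^^^ 2 ^ j.val)

theorem dec_swm {i j : Fin 7} (hij : i ≠ j) (s : ℕ) :
    (dec (swm i j s) : Set (Fin 7)) = (Equiv.swap i j) '' (dec s : Set (Fin 7)) := by
  ext k
  simp only [Finset.mem_coe, mem_dec, Equiv.image_eq_preimage_symm, Equiv.symm_swap,
    Set.mem_preimage]
  have hv : i.val ≠ j.val := fun h => hij (Fin.ext h)
  by_cases hki : k = i
  · subst hki
    rw [Equiv.swap_apply_left]
    unfold swm
    split_ifs with h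
    · rw [h]
    · rw [Nat.testBit_xor, Nat.testBit_xor, Nat.testBit_two_pow_self, Nat.testBit_two_pow_of_ne (Ne.symm hv)]
      cases h1 : s.testBit k.val <;> cases h2 : s.testBit j.val <;> simp_all
  · by_cases hkj : k = j
    · subst hkj
      rw [Equiv.swap_apply_right]
      unfold swm
      split_ifs with h
      · rw [h]
      · rw [Nat.testBit_xor, Nat.testBit_xor, Nat.testBit_two_pow_self, Nat.testBit_two_pow_of_ne hv]
        cases h1 : s.testBit i.val <;> cases h2 : s.testBit k.val <;> simp_all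
    · rw [Equiv.swap_apply_of_ne_of_ne hki hkj]
      have h1 : k.val ≠ i.val := fun h => hki (Fin.ext h)
      have h2 : k.val ≠ j.val := fun h => hkj (Fin.ext h)
      unfold swm
      split_ifs with h
      · rfl
      · rw [Nat.testBit_xor, Nat.testBit_xor, Nat.testBit_two_pow_of_ne (Ne.symm h1),
          Nat.testBit_two_pow_of_ne (Ne.symm h2)]
        simp

theorem swm_lt {i j : Fin 7} {s : ℕ} (hs : s < 128) : swm i j s < 128 := by
  unfold swm
  split_ifs with h
  · exact hs
  · have h1 : 2 ^ i.val < 2 ^ 7 := Nat.pow_lt_pow_right (by norm_num) i.isLt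
    have h2 : 2 ^ j.val < 2 ^ 7 := Nat.pow_lt_pow_right (by norm_num) j.isLt
    have h3 : s < 2 ^ 7 := by simpa using hs
    have := Nat.xor_lt_two_pow h3 (Nat.xor_lt_two_pow h1 h2)
    simpa using this

/-- the matroid obtained by a transposition -/
def swM (i j : Fin 7) (M : Matroid (Fin 7)) : Matroid (Fin 7) := M.mapEquiv (Equiv.swap i j)

theorem swM_indep {i j : Fin 7} {M : Matroid (Fin 7)} {I : Set (Fin 7)} :
    (swM i j M).Indep I ↔ M.Indep ((Equiv.swap i j) '' I) := by
  rw [swM, Matroid.mapEquiv_indep_iff, Equiv.symm_swap]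

theorem swM_E {i j : Fin 7} {M : Matroid (Fin 7)} (hM : M.E = univ) : (swM i j M).E = univ := by
  rw [swM, Matroid.mapEquiv_ground_eq, hM]
  simp

theorem testBit_code_swM {i j : Fin 7} (hij : i ≠ j) (M : Matroid (Fin 7)) {s : ℕ}
    (hs : s < 128) : (code (swM i j M)).testBit s = (code M).testBit (swm i j s) := by
  rw [Bool.eq_iff_iff, testBit_code _ hs, testBit_code _ (swm_lt hs), swM_indep, dec_swm hij]

/-- correctness check of the data for a transposition -/
def okSwap (t : Fin 7 × Fin 7 × ℕ × ℕ × ℕ) : Bool :=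
  decide (t.1 ≠ t.2.1) && decide (t.2.2.1 < 2 ^ 128) && decide (t.2.2.2.1 < 2 ^ 128) &&
  (List.range 256).all (fun s =>
    ((decide (s < 128) && t.2.2.2.1.testBit s && !(t.2.2.1.testBit s) &&
        !(decide (t.2.2.2.2 ≤ s) && t.2.2.1.testBit (s - t.2.2.2.2)) &&
        decide (swm t.1 t.2.1 s = s)) ||
     (decide (s < 128) && !(t.2.2.2.1.testBit s) && (t.2.2.1.testBit s) &&
        !(decide (t.2.2.2.2 ≤ s) && t.2.2.1.testBit (s - t.2.2.2.2)) &&
        decide (swm t.1 t.2.1 s = t.2.2.2.2 + s)) ||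
     (decide (s < 128) && !(t.2.2.2.1.testBit s) && !(t.2.2.1.testBit s) &&
        (decide (t.2.2.2.2 ≤ s) && t.2.2.1.testBit (s - t.2.2.2.2)) &&
        decide (swm t.1 t.2.1 s = s - t.2.2.2.2)) ||
     (decide (128 ≤ s) && !(t.2.2.2.1.testBit s) && !(t.2.2.1.testBit s) &&
        !(decide (t.2.2.2.2 ≤ s) && t.2.2.1.testBit (s - t.2.2.2.2))))) &&
  decide (t.2.2.2.2 ≤ 128)

theorem testBit_ap (t : Fin 7 × Fin 7 × ℕ × ℕ × ℕ) (D s : ℕ) :
    (ap t D).testBit s = ((D.testBit s && t.2.2.2.1.testBit s) ||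
      (decide (t.2.2.2.2 ≤ s) && (D.testBit (s - t.2.2.2.2) && t.2.2.1.testBit (s - t.2.2.2.2))) ||
      (D.testBit (t.2.2.2.2 + s) && t.2.2.1.testBit s)) := by
  unfold ap
  simp only [Nat.testBit_or, Nat.testBit_and, Nat.testBit_shiftLeft, Nat.testBit_shiftRight]

theorem testBit_ap_lt {t : Fin 7 × Fin 7 × ℕ × ℕ × ℕ} (ht : okSwap t = true) (D : ℕ) {s : ℕ}
    (hs : s < 128) : (ap t D).testBit s = D.testBit (swm t.1 t.2.1 s) := by
  obtain ⟨i, j, A, K, d⟩ := t
  simp only [okSwap, Bool.and_eq_true, decide_eq_true_eq, List.all_eq_true, List.mem_range] at ht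
  obtain ⟨⟨⟨⟨hij, hA⟩, hK⟩, hs'⟩, hd⟩ := ht
  rw [testBit_ap]
  have h := hs' s (by omega)
  have h128' : ¬ (128 ≤ s) := by omega
  simp only [Bool.or_eq_true, Bool.and_eq_true, decide_eq_true_eq, Bool.not_eq_true',
    Bool.and_eq_false_iff, decide_eq_false_iff_not] at h
  rcases h with ((h | h) | h) | h
  · obtain ⟨⟨⟨⟨-, hK1⟩, hA1⟩, hA2⟩, hsw⟩ := h
    rw [hsw]
    rcases hA2 with hA2 | hA2
    · simp [hK1, hA1, hA2]
    · simp [hK1, hA1, hA2]
  · obtain ⟨⟨⟨⟨-, hK1⟩, hA1⟩, hA2⟩, hsw⟩ := h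
    rw [hsw]
    rcases hA2 with hA2 | hA2
    · simp [hK1, hA1, hA2]
    · simp [hK1, hA1, hA2]
  · obtain ⟨⟨⟨⟨-, hK1⟩, hA1⟩, hA2, hA3⟩, hsw⟩ := h
    rw [hsw]
    simp [hK1, hA1, hA2, hA3]
  · exact absurd h.1.1.1 h128'

theorem testBit_ap_ge {t : Fin 7 × Fin 7 × ℕ × ℕ × ℕ} (ht : okSwap t = true) (D : ℕ) {s : ℕ}
    (hs : 128 ≤ s) : (ap t D).testBit s = false := by
  obtain ⟨i, j, A, K, d⟩ := t
  simp only [okSwap, Bool.and_eq_true, decide_eq_true_eq, List.all_eq_true, List.mem_range] at ht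
  obtain ⟨⟨⟨⟨hij, hA⟩, hK⟩, hs'⟩, hd⟩ := ht
  rw [testBit_ap]
  by_cases hs256 : s < 256
  · have h := hs' s hs256
    have h128 : ¬ (s < 128) := by omega
    simp only [Bool.or_eq_true, Bool.and_eq_true, decide_eq_true_eq, Bool.not_eq_true',
      Bool.and_eq_false_iff, decide_eq_false_iff_not] at h
    rcases h with ((h | h) | h) | h
    · exact absurd h.1.1.1.1 h128
    · exact absurd h.1.1.1.1 h128
    · exact absurd h.1.1.1.1 h128
    · obtain ⟨⟨⟨-, hK1⟩, hA1⟩, hA2⟩ := h
      rcases hA2 with hA2 | hA2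
      · simp [hK1, hA1, hA2]
      · simp [hK1, hA1, hA2]
  · have hK1 : K.testBit s = false := by
      apply Nat.testBit_lt_two_pow
      exact lt_of_lt_of_le hK (Nat.pow_le_pow_right (by norm_num) (by omega))
    have hA1 : A.testBit s = false := by
      apply Nat.testBit_lt_two_pow
      exact lt_of_lt_of_le hA (Nat.pow_le_pow_right (by norm_num) (by omega))
    have hA2 : A.testBit (s - d) = false := by
      apply Nat.testBit_lt_two_pow
      exact lt_of_lt_of_le hA (Nat.pow_le_pow_right (by norm_num) (by omega))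
    simp [hK1, hA1, hA2]

theorem okSwap_ne {t : Fin 7 × Fin 7 × ℕ × ℕ × ℕ} (ht : okSwap t = true) : t.1 ≠ t.2.1 := by
  simp only [okSwap, Bool.and_eq_true, decide_eq_true_eq] at ht
  exact ht.1.1.1.1

theorem code_swM {t : Fin 7 × Fin 7 × ℕ × ℕ × ℕ} (ht : okSwap t = true) (M : Matroid (Fin 7)) :
    code (swM t.1 t.2.1 M) = ap t (code M) := by
  apply Nat.eq_of_testBit_eq
  intro s
  by_cases hs : s < 128
  · rw [testBit_code_swM (okSwap_ne ht) _ hs, testBit_ap_lt ht _ hs]
  · rw [testBit_code_ge _ (by omega), testBit_ap_ge ht _ (by omega)]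

end Pool.Agent.Paving7
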