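import Pool.Agent.Paving7.Search

set_option autoImplicit false

namespace Pool.Agent.Paving7

theorem search7 : search full7 (leaf full7) L7 low7 0 = true := by decide +kernel
theorem search6 : search full6 (leaf full6) L6 low6 0 = true := by decide +kernel
theorem search5 : search full5 (leaf full5) L5 low5 0 = true := by decide +kernel

end Pool.Agent.Paving7
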