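import Pool.Agent.Paving7.Search

set_option autoImplicit false

namespace Pool.Agent.Paving7

theorem search3 : search full3 (leaf full3) L3 low3 0 = true := by decide +kernel

end Pool.Agent.Paving7
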