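import Pool.Agent.Paving7.Search

set_option autoImplicit false

namespace Pool.Agent.Paving7

theorem search4 : search full4 (leaf full4) L4 low4 0 = true := by decide +kernel

end Pool.Agent.Paving7
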