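import Pool.Agent.Paving7.Upper
import Pool.Agent.Paving7.Check
import Pool.Agent.Paving7.Check3
import Pool.Agent.Paving7.Check4

set_option autoImplicit false

/-!
Isomorphism classes, and the upper bound for the number of paving classes.
-/

namespace Pool.Agent.Paving7

open Set

/-- the isomorphism class of `M` -/
def cls (M : Matroid (Fin 7)) : Set (Matroid (Fin 7)) :=
  {N : Matroid (Fin 7) | N.E = Set.univ ∧
    ∃ σ : Equiv.Perm (Fin 7), ∀ I : Set (Fin 7), N.Indep I ↔ M.Indep (σ '' I)}

theorem mem_cls_self {M : Matroid (Fin 7)} (hE : M.E = univ) : M ∈ cls M :=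
  ⟨hE, Equiv.refl _, fun I => by simp⟩

theorem cls_eq {M N : Matroid (Fin 7)} (hN : N ∈ cls M) : cls N = cls M := by
  obtain ⟨_, σ, hσ⟩ := hN
  ext K
  constructor
  · rintro ⟨hK, τ, hτ⟩
    refine ⟨hK, τ.trans σ, fun I => ?_⟩
    rw [hτ, hσ, Equiv.coe_trans, Set.image_comp]
  · rintro ⟨hK, τ, hτ⟩
    refine ⟨hK, τ.trans σ.symm, fun I => ?_⟩
    rw [hτ, hσ, Equiv.coe_trans, Set.image_comp]
    simp

theorem swM_mem {M N : Matroid (Fin 7)} (hN : N ∈ cls M) (i j : Fin 7) :
    swM i j N ∈ cls M := by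
  obtain ⟨hE, σ, hσ⟩ := hN
  refine ⟨swM_E hE, (Equiv.swap i j).trans σ, fun I => ?_⟩
  rw [swM_indep, hσ, Equiv.coe_trans, Set.image_comp]

theorem indep_perm {M N : Matroid (Fin 7)} {σ : Equiv.Perm (Fin 7)}
    (hσ : ∀ I : Set (Fin 7), N.Indep I ↔ M.Indep (σ '' I)) (S : Finset (Fin 7)) :
    N.Indep (S : Set (Fin 7)) ↔ M.Indep ((S.map σ.toEmbedding : Finset (Fin 7)) : Set (Fin 7)) := by
  rw [hσ, Finset.coe_map]
  rfl

theorem simp_of_cls {M N : Matroid (Fin 7)} (hN : N ∈ cls M) (h : Simp M) : Simp N := by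
  obtain ⟨_, σ, hσ⟩ := hN
  intro S hS
  rw [indep_perm hσ]
  apply h
  rw [Finset.card_map]
  exact hS

theorem pav_of_cls {M N : Matroid (Fin 7)} (hN : N ∈ cls M) (h : Pav M) : Pav N := by
  obtain ⟨_, σ, hσ⟩ := hN
  intro S T hS hT
  rw [indep_perm hσ] at hS hT
  have := h _ _ hS hT
  rwa [Finset.card_map, Finset.card_map] at this

theorem cls_finite (M : Matroid (Fin 7)) : (cls M).Finite :=
  (Matroid.finite_setOfPred_matroid' (E := (univ : Set (Fin 7))) (Set.toFinite _)).subset
    (fun _ h => h.1)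

theorem tab_ok : tab.all okSwap = true := by decide +kernel

theorem w3_ok : w3.all okSwap = true := by decide +kernel

theorem adj_ok : adj.all okSwap = true := by decide +kernel

theorem isMax_of_max {M N : Matroid (Fin 7)} (hN : N ∈ cls M)
    (hmax : ∀ K ∈ cls M, code K ≤ code N) : isMax (code N) = true := by
  have htab := tab_ok
  have hw3 := w3_ok
  rw [List.all_eq_true] at htab hw3
  have hfold : ∀ (l : List (Fin 7 × Fin 7 × ℕ × ℕ × ℕ)), (∀ t ∈ l, okSwap t = true) →
      ∀ K ∈ cls M, ∃ K' ∈ cls M, code K' = l.foldl (fun c t => ap t c) (code K) := by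
    intro l
    induction l with
    | nil => intro _ K hK; exact ⟨K, hK, rfl⟩
    | cons t l ih =>
      intro hl K hK
      obtain ⟨K', hK', h⟩ := ih (fun t ht => hl t (by simp [ht])) (swM t.1 t.2.1 K)
        (swM_mem hK _ _)
      refine ⟨K', hK', ?_⟩
      rw [h, List.foldl_cons, code_swM (hl t (by simp))]
  simp only [isMax, Bool.and_eq_true, List.all_eq_true, Nat.ble_eq]
  refine ⟨⟨?_, ?_⟩, ?_⟩
  · intro t ht
    obtain ⟨K', hK', h⟩ := hfold [t] (by simpa using htab t ht) N hN
    have := hmax K' hK'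
    rw [h] at this
    simpa using this
  · intro t ht u hu
    obtain ⟨K', hK', h⟩ := hfold [t, u] (by
      intro v hv
      simp only [List.mem_cons, List.not_mem_nil, or_false] at hv
      rcases hv with rfl | rfl
      · exact htab _ ht
      · exact htab _ hu) N hN
    have := hmax K' hK'
    rw [h] at this
    simpa using this
  · obtain ⟨K', hK', h⟩ := hfold w3 hw3 N hN
    have := hmax K' hK'
    rw [h] at this
    exact this

/-- bit test for low codes -/
theorem low3_mem : reps.contains low3 = true := by decide +kernel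

theorem code_mem_reps {M N : Matroid (Fin 7)} (hN : N ∈ cls M) (hS : Simp M) (hP : Pav M)
    (hmax : ∀ K ∈ cls M, code K ≤ code N) : code N ∈ reps := by
  have hS' := simp_of_cls hN hS
  have hP' := pav_of_cls hN hP
  have hM := isMax_of_max hN hmax
  obtain ⟨B₀, hB₀⟩ := N.exists_isBase
  obtain ⟨B, rfl⟩ := exists_coe B₀
  have hBi : N.Indep (B : Set (Fin 7)) := hB₀.indep
  have hcard : ∀ T : Finset (Fin 7), N.Indep (T : Set (Fin 7)) → T.card ≤ B.card := by
    intro T hT
    obtain ⟨C, hC, hTC⟩ := hT.exists_isBase_superset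
    have h1 : C.ncard = (B : Set (Fin 7)).ncard := hC.ncard_eq_ncard_of_isBase hB₀
    have h2 : (T : Set (Fin 7)).ncard ≤ C.ncard := ncard_le_ncard hTC (Set.toFinite _)
    rw [h1, ncard_coe_finset, ncard_coe_finset] at h2
    exact h2
  have h2 : 2 ≤ B.card := by
    have := hcard {0, 1} (hS' {0, 1} (by decide))
    simpa using this
  have h7 : B.card ≤ 7 := by
    have := Finset.card_le_univ B
    simpa using this
  have hadj := adj_ok
  rw [List.all_eq_true] at hadj
  have hadj2 : ∀ t ∈ adj, ap t (code N) ≤ code N := by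
    intro t ht
    rw [← code_swM (hadj t ht)]
    exact hmax _ (swM_mem hN _ _)
  obtain ⟨r, hr⟩ : ∃ r, B.card = r := ⟨_, rfl⟩
  rw [hr] at hcard h2 h7
  interval_cases r
  · -- rank two
    have hcode : code N = low3 := by
      have hl := okLow3
      simp only [okLow, Bool.and_eq_true, List.all_eq_true, List.mem_range, Nat.blt_eq,
        beq_iff_eq] at hl
      obtain ⟨⟨hlo, -⟩, hlf⟩ := hl
      apply Nat.eq_of_testBit_eq
      intro i
      by_cases hi : i < 128
      · rw [Bool.eq_iff_iff, testBit_code N hi, (hlf i hi).1, Nat.blt_eq, ← card_dec hi]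
        constructor
        · intro h
          have := hcard _ h
          omega
        · intro h
          exact hS' _ (by omega)
      · rw [testBit_code_ge N (by omega)]
        symm
        apply Nat.testBit_lt_two_pow
        exact lt_of_lt_of_le hlo (Nat.pow_le_pow_right (by norm_num) (by omega))
    rw [hcode]
    simpa using low3_mem
  · exact leaf_code hP' okTab3 okLow3 search3
      (fun t ht => sok hP' okLow3 hBi hr hcard (hadj t ht) (hadj2 t ht)) hBi hr hcard hM
  · exact leaf_code hP' okTab4 okLow4 search4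
      (fun t ht => sok hP' okLow4 hBi hr hcard (hadj t ht) (hadj2 t ht)) hBi hr hcard hM
  · exact leaf_code hP' okTab5 okLow5 search5
      (fun t ht => sok hP' okLow5 hBi hr hcard (hadj t ht) (hadj2 t ht)) hBi hr hcard hM
  · exact leaf_code hP' okTab6 okLow6 search6
      (fun t ht => sok hP' okLow6 hBi hr hcard (hadj t ht) (hadj2 t ht)) hBi hr hcard hM
  · exact leaf_code hP' okTab7 okLow7 search7
      (fun t ht => sok hP' okLow7 hBi hr hcard (hadj t ht) (hadj2 t ht)) hBi hr hcard hM

theorem ncard_pav :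
    {c : Set (Matroid (Fin 7)) | ∃ M : Matroid (Fin 7), M.E = univ ∧ Simp M ∧ Pav M ∧
      c = cls M}.ncard ≤ 50 := by
  have hfin : {N : Matroid (Fin 7) | N.E = univ ∧ code N ∈ reps}.Finite :=
    (Matroid.finite_setOfPred_matroid' (E := (univ : Set (Fin 7))) (Set.toFinite _)).subset
      (fun _ h => h.1)
  have h1 : {c : Set (Matroid (Fin 7)) | ∃ M : Matroid (Fin 7), M.E = univ ∧ Simp M ∧ Pav M ∧
      c = cls M} ⊆ cls '' {N : Matroid (Fin 7) | N.E = univ ∧ code N ∈ reps} := by
    rintro c ⟨M, hE, hS, hP, rfl⟩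
    obtain ⟨N, hN, hmax⟩ := Set.exists_max_image (cls M) code (cls_finite M)
      ⟨M, mem_cls_self hE⟩
    exact ⟨N, ⟨hN.1, code_mem_reps hN hS hP hmax⟩, cls_eq hN⟩
  have h2 : {N : Matroid (Fin 7) | N.E = univ ∧ code N ∈ reps}.ncard ≤ 50 := by
    have h3 : {N : Matroid (Fin 7) | N.E = univ ∧ code N ∈ reps}.ncard ≤
        ((reps.toFinset : Finset ℕ) : Set ℕ).ncard := by
      apply ncard_le_ncard_of_injOn code
      · rintro N ⟨_, hN⟩
        simpa using hN
      · rintro N ⟨hN, _⟩ K ⟨hK, _⟩ h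
        exact code_inj hN hK h
    rw [ncard_coe_finset] at h3
    exact h3.trans ((List.toFinset_card_le _).trans (by decide +kernel))
  calc _ ≤ (cls '' {N : Matroid (Fin 7) | N.E = univ ∧ code N ∈ reps}).ncard :=
        ncard_le_ncard h1 (hfin.image _)
    _ ≤ {N : Matroid (Fin 7) | N.E = univ ∧ code N ∈ reps}.ncard := ncard_image_le hfin
    _ ≤ 50 := h2

end Pool.Agent.Paving7
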