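import Pool.Agent.Paving7.Lower

set_option autoImplicit false

/-!
There are at most 50 simple paving matroids on seven elements, and at least 51 simple matroids
on seven elements that are not paving, up to isomorphism.
-/

namespace Pool.Agent.Paving7

open Set

theorem two_mul_le :
    2 * {c : Set (Matroid (Fin 7)) |
            ∃ M : Matroid (Fin 7), M.E = Set.univ ∧
              (∀ C : Set (Fin 7), M.IsCircuit C → 3 ≤ C.ncard) ∧
              (∀ C B : Set (Fin 7), M.IsCircuit C → M.IsBase B → B.ncard ≤ C.ncard) ∧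
              c = {N : Matroid (Fin 7) | N.E = Set.univ ∧
                    ∃ σ : Equiv.Perm (Fin 7), ∀ I : Set (Fin 7), N.Indep I ↔ M.Indep (σ '' I)}}.ncard
        ≤ {c : Set (Matroid (Fin 7)) |
            ∃ M : Matroid (Fin 7), M.E = Set.univ ∧
              (∀ C : Set (Fin 7), M.IsCircuit C → 3 ≤ C.ncard) ∧
              c = {N : Matroid (Fin 7) | N.E = Set.univ ∧
                    ∃ σ : Equiv.Perm (Fin 7), ∀ I : Set (Fin 7), N.Indep I ↔ M.Indep (σ '' I)}}.ncard := by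
  have hP : {c : Set (Matroid (Fin 7)) |
            ∃ M : Matroid (Fin 7), M.E = Set.univ ∧
              (∀ C : Set (Fin 7), M.IsCircuit C → 3 ≤ C.ncard) ∧
              (∀ C B : Set (Fin 7), M.IsCircuit C → M.IsBase B → B.ncard ≤ C.ncard) ∧
              c = {N : Matroid (Fin 7) | N.E = Set.univ ∧
                    ∃ σ : Equiv.Perm (Fin 7), ∀ I : Set (Fin 7), N.Indep I ↔ M.Indep (σ '' I)}} =
      {c : Set (Matroid (Fin 7)) | ∃ M : Matroid (Fin 7), M.E = univ ∧ Simp M ∧ Pav M ∧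
        c = cls M} := by
    ext c
    constructor
    · rintro ⟨M, hE, hS, hP, rfl⟩
      exact ⟨M, hE, (simp_iff hE).1 hS, (pav_iff hE).1 hP, rfl⟩
    · rintro ⟨M, hE, hS, hP, rfl⟩
      exact ⟨M, hE, (simp_iff hE).2 hS, (pav_iff hE).2 hP, rfl⟩
  have hS : {c : Set (Matroid (Fin 7)) |
            ∃ M : Matroid (Fin 7), M.E = Set.univ ∧
              (∀ C : Set (Fin 7), M.IsCircuit C → 3 ≤ C.ncard) ∧
              c = {N : Matroid (Fin 7) | N.E = Set.univ ∧
                    ∃ σ : Equiv.Perm (Fin 7), ∀ I : Set (Fin 7), N.Indep I ↔ M.Indep (σ '' I)}} =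
      {c : Set (Matroid (Fin 7)) | ∃ M : Matroid (Fin 7), M.E = univ ∧ Simp M ∧ Pav M ∧
        c = cls M} ∪
      {c : Set (Matroid (Fin 7)) | ∃ M : Matroid (Fin 7), M.E = univ ∧ Simp M ∧ ¬ Pav M ∧
        c = cls M} := by
    ext c
    constructor
    · rintro ⟨M, hE, hS, rfl⟩
      by_cases hP : Pav M
      · exact Or.inl ⟨M, hE, (simp_iff hE).1 hS, hP, rfl⟩
      · exact Or.inr ⟨M, hE, (simp_iff hE).1 hS, hP, rfl⟩
    · rintro (⟨M, hE, hS, -, rfl⟩ | ⟨M, hE, hS, -, rfl⟩)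
      · exact ⟨M, hE, (simp_iff hE).2 hS, rfl⟩
      · exact ⟨M, hE, (simp_iff hE).2 hS, rfl⟩
  have hfin1 : {c : Set (Matroid (Fin 7)) | ∃ M : Matroid (Fin 7), M.E = univ ∧ Simp M ∧ Pav M ∧
        c = cls M}.Finite := by
    apply ((Matroid.finite_setOfPred_matroid' (E := (univ : Set (Fin 7)))
      (Set.toFinite _)).image cls).subset
    rintro c ⟨M, hE, -, -, rfl⟩
    exact ⟨M, hE, rfl⟩
  have hfin2 : {c : Set (Matroid (Fin 7)) | ∃ M : Matroid (Fin 7), M.E = univ ∧ Simp M ∧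
        ¬ Pav M ∧ c = cls M}.Finite := by
    apply ((Matroid.finite_setOfPred_matroid' (E := (univ : Set (Fin 7)))
      (Set.toFinite _)).image cls).subset
    rintro c ⟨M, hE, -, -, rfl⟩
    exact ⟨M, hE, rfl⟩
  have hdisj : Disjoint {c : Set (Matroid (Fin 7)) | ∃ M : Matroid (Fin 7), M.E = univ ∧
        Simp M ∧ Pav M ∧ c = cls M}
      {c : Set (Matroid (Fin 7)) | ∃ M : Matroid (Fin 7), M.E = univ ∧ Simp M ∧ ¬ Pav M ∧
        c = cls M} := by
    rw [Set.disjoint_left]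
    rintro c ⟨M, hE, hS, hP, rfl⟩ ⟨N, hE', hS', hP', h⟩
    have : N ∈ cls M := by rw [h]; exact mem_cls_self hE'
    exact hP' (pav_of_cls this hP)
  rw [hP, hS, Set.ncard_union_eq hdisj hfin1 hfin2]
  have h1 := ncard_pav
  have h2 := ncard_nonpav
  omega

end Pool.Agent.Paving7
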