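import Pool.Agent.Paving7.Classes

set_option autoImplicit false

/-!
Explicit simple matroids on `Fin 7` that are not paving, pairwise non-isomorphic.
-/

namespace Pool.Agent.Paving7

open Set

/-- the elements whose addition to `s` keeps it independent -/
def nb (c s : ℕ) : ℕ :=
  Nat.ofBits (fun i : Fin 7 => !(s.testBit i.val) && c.testBit (s ^^^ 2 ^ i.val))

/-- the masks of size `k` that are independent -/
def lev (c k : ℕ) : List ℕ :=
  (List.range 128).filter (fun s => Nat.beq (pcn s) k && c.testBit s)

/-- the code `c` describes a simple non-paving matroid -/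
def good (c : ℕ) : Bool :=
  c.testBit 0 &&
  (List.range 128).all (fun s => !(c.testBit s) ||
    (List.range 7).all (fun i => !(s.testBit i) || c.testBit (s ^^^ 2 ^ i))) &&
  (List.range 7).all (fun k => (lev c k).all (fun s => (lev c (k + 1)).all (fun t =>
    !(Nat.beq (t &&& nb c s) 0)))) &&
  (List.range 128).all (fun s => Nat.blt 2 (pcn s) || c.testBit s) &&
  (List.range 128).any (fun s => !(c.testBit s) && (List.range 128).any (fun t =>
    c.testBit t && Nat.blt (pcn s) (pcn t)))

theorem good_all : nonpav.all good = true := by decide +kernel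

theorem mem_lev {c k s : ℕ} (h1 : s < 128) (h2 : pcn s = k) (h3 : c.testBit s = true) :
    s ∈ lev c k := by
  unfold lev
  rw [List.mem_filter, List.mem_range]
  refine ⟨h1, ?_⟩
  rw [h2, h3]
  simp

theorem testBit_nb {c s i : ℕ} (h : (nb c s).testBit i = true) :
    i < 7 ∧ s.testBit i = false ∧ c.testBit (s ^^^ 2 ^ i) = true := by
  rw [nb, Nat.testBit_ofBits] at h
  split_ifs at h with hi
  simp only [Bool.and_eq_true, Bool.not_eq_true'] at h
  exact ⟨hi, h.1, h.2⟩

theorem enc_xor {S : Finset (Fin 7)} {i : Fin 7} (h : i ∉ S) :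
    enc S ^^^ 2 ^ i.val = enc (insert i S) := by
  apply Nat.eq_of_testBit_eq
  intro j
  rw [Nat.testBit_xor, testBit_enc, testBit_enc, Nat.testBit_two_pow]
  by_cases hj : j < 7
  · simp only [hj, dif_pos, Finset.mem_insert]
    by_cases hij : i.val = j
    · have : (⟨j, hj⟩ : Fin 7) = i := Fin.ext hij.symm
      rw [this]
      simp [h, hij]
    · have : (⟨j, hj⟩ : Fin 7) ≠ i := fun h => hij (by rw [← h])
      simp [this, hij]
  · have : i.val ≠ j := by omega
    simp [hj, this]

theorem enc_xor' {S : Finset (Fin 7)} {i : Fin 7} (h : i ∈ S) :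
    enc S ^^^ 2 ^ i.val = enc (S.erase i) := by
  have h1 := enc_xor (S := S.erase i) (i := i) (by simp)
  rw [Finset.insert_erase h] at h1
  rw [← h1, Nat.xor_assoc, Nat.xor_self, Nat.xor_zero]

section

variable {c : ℕ} (hc : good c = true)

include hc

theorem good_empty : c.testBit (enc ∅) = true := by
  have h0 : enc ∅ = 0 := by
    apply Nat.eq_of_testBit_eq
    intro j
    rw [testBit_enc]
    simp
  simp only [good, Bool.and_eq_true] at hc
  rw [h0]
  exact hc.1.1.1.1

theorem good_erase {S : Finset (Fin 7)} (hS : c.testBit (enc S) = true) {i : Fin 7} (hi : i ∈ S) :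
    c.testBit (enc (S.erase i)) = true := by
  simp only [good, Bool.and_eq_true, List.all_eq_true, List.mem_range, Bool.or_eq_true,
    Bool.not_eq_true'] at hc
  have h := hc.1.1.1.2 (enc S) (enc_lt S)
  rcases h with h | h
  · rw [hS] at h; exact absurd h (by simp)
  · rcases h i.val i.isLt with h | h
    · rw [testBit_enc] at h
      simp [hi] at h
    · rw [enc_xor' hi] at h
      exact h

theorem good_subset {I J : Finset (Fin 7)} (hJ : c.testBit (enc J) = true) (hIJ : I ⊆ J) :
    c.testBit (enc I) = true := by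
  induction hn : J.card - I.card generalizing J with
  | zero =>
    have : I = J := Finset.eq_of_subset_of_card_le hIJ (by omega)
    rw [this]; exact hJ
  | succ n ih =>
    have hne : I ≠ J := by rintro rfl; omega
    obtain ⟨i, hiJ, hiI⟩ := Finset.exists_of_ssubset (lt_of_le_of_ne hIJ hne)
    have hsub : I ⊆ J.erase i := by
      intro x hx
      rw [Finset.mem_erase]
      exact ⟨by rintro rfl; exact hiI hx, hIJ hx⟩
    exact ih (good_erase hc hJ hiJ) hsub (by rw [Finset.card_erase_of_mem hiJ]; omega)

theorem good_aug {I J : Finset (Fin 7)} (hI : c.testBit (enc I) = true)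
    (hJ : c.testBit (enc J) = true) (hlt : I.card < J.card) :
    ∃ e ∈ J, e ∉ I ∧ c.testBit (enc (insert e I)) = true := by
  obtain ⟨K, hKJ, hK⟩ := Finset.exists_subset_card_eq (s := J) (n := I.card + 1) (by omega)
  have hKc := good_subset hc hJ hKJ
  have hc' := hc
  simp only [good, Bool.and_eq_true, List.all_eq_true, List.mem_range, Bool.not_eq_true'] at hc'
  have h7 : K.card ≤ 7 := by simpa using Finset.card_le_univ K
  have hIp : pcn (enc I) = I.card := by rw [← card_dec (enc_lt I), dec_enc]
  have hKp : pcn (enc K) = I.card + 1 := by rw [← card_dec (enc_lt K), dec_enc, hK]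
  have h := hc'.1.1.2 I.card (by omega) (enc I) (mem_lev (enc_lt I) hIp hI) (enc K)
    (mem_lev (enc_lt K) hKp hKc)
  obtain ⟨i, hi⟩ := exists_testBit (ne_of_beq_false h)
  rw [Nat.testBit_and, Bool.and_eq_true] at hi
  obtain ⟨hi7, hi1, hi2⟩ := testBit_nb hi.2
  have hiK : (⟨i, hi7⟩ : Fin 7) ∈ K := by
    have := hi.1
    rw [testBit_enc] at this
    simpa [hi7] using this
  have hiI : (⟨i, hi7⟩ : Fin 7) ∉ I := by
    have := hi1
    rw [testBit_enc] at this
    simpa [hi7] using this
  refine ⟨⟨i, hi7⟩, hKJ hiK, hiI, ?_⟩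
  rw [← enc_xor hiI]
  exact hi2

end

open Classical in
/-- the matroid with code `c` (if `c` is good) -/
noncomputable def mkM (c : ℕ) : Matroid (Fin 7) :=
  if hc : good c = true then
    (IndepMatroid.ofFinset (univ : Set (Fin 7)) (fun S => c.testBit (enc S) = true)
      (good_empty hc) (fun _ _ hJ hIJ => good_subset hc hJ hIJ)
      (fun _ _ hI hJ hlt => good_aug hc hI hJ hlt) (fun _ _ => subset_univ _)).matroid
  else Matroid.loopyOn univ

theorem mkM_E (c : ℕ) : (mkM c).E = univ := by
  unfold mkM
  split_ifs <;> rfl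

theorem mkM_indep {c : ℕ} (hc : good c = true) (S : Finset (Fin 7)) :
    (mkM c).Indep (S : Set (Fin 7)) ↔ c.testBit (enc S) = true := by
  unfold mkM
  rw [dif_pos hc]
  simp

theorem mkM_simp {c : ℕ} (hc : good c = true) : Simp (mkM c) := by
  intro S hS
  rw [mkM_indep hc]
  simp only [good, Bool.and_eq_true, List.all_eq_true, List.mem_range, Bool.or_eq_true] at hc
  rcases hc.1.2 (enc S) (enc_lt S) with h | h
  · rw [Nat.blt_eq, ← card_dec (enc_lt S), dec_enc] at h
    omega
  · exact h

theorem mkM_not_pav {c : ℕ} (hc : good c = true) : ¬ Pav (mkM c) := by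
  intro hP
  have hc' := hc
  simp only [good, Bool.and_eq_true, List.any_eq_true, List.mem_range, Bool.not_eq_true'] at hc'
  obtain ⟨s, hs128, hs, t, ht128, ht, hlt⟩ := hc'.2
  rw [Nat.blt_eq, ← card_dec hs128, ← card_dec ht128] at hlt
  have := hP (dec s) (dec t) (by rw [mkM_indep hc, enc_dec hs128, hs]; simp)
    (by rw [mkM_indep hc, enc_dec ht128]; exact ht)
  omega

open Classical in
/-- an isomorphism invariant: the sum over the elements of the squares of the number of
independent sets containing the element -/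
noncomputable def inv (M : Matroid (Fin 7)) : ℕ :=
  ∑ e : Fin 7, (Finset.univ.filter (fun S : Finset (Fin 7) =>
    M.Indep (S : Set (Fin 7)) ∧ e ∈ S)).card ^ 2

theorem inv_cls {M N : Matroid (Fin 7)} (hN : N ∈ cls M) : inv N = inv M := by
  classical
  obtain ⟨_, σ, hσ⟩ := hN
  unfold inv
  rw [← Equiv.sum_comp σ (fun e => (Finset.univ.filter (fun S : Finset (Fin 7) =>
    M.Indep (S : Set (Fin 7)) ∧ e ∈ S)).card ^ 2)]
  apply Finset.sum_congr rfl
  intro e _
  congr 1
  apply Finset.card_bij (fun S _ => S.map σ.toEmbedding)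
  · intro S hS
    simp only [Finset.mem_filter, Finset.mem_univ, true_and] at hS ⊢
    refine ⟨(indep_perm hσ S).1 hS.1, ?_⟩
    rw [Finset.mem_map]
    exact ⟨e, hS.2, rfl⟩
  · intro S _ T _ h
    exact Finset.map_injective _ h
  · intro T hT
    simp only [Finset.mem_filter, Finset.mem_univ, true_and] at hT
    refine ⟨T.map σ.symm.toEmbedding, ?_, ?_⟩
    · simp only [Finset.mem_filter, Finset.mem_univ, true_and]
      constructor
      · rw [indep_perm hσ, Finset.map_map]
        convert hT.1 using 2
        have : σ.symm.toEmbedding.trans σ.toEmbedding = Function.Embedding.refl _ := by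
          ext x; simp
        rw [this, Finset.map_refl]
      · rw [Finset.mem_map]
        exact ⟨σ e, hT.2, by simp⟩
    · rw [Finset.map_map]
      have : σ.symm.toEmbedding.trans σ.toEmbedding = Function.Embedding.refl _ := by
        ext x; simp
      rw [this, Finset.map_refl]

/-- the invariant, computed from the code -/
def invc (c : ℕ) : ℕ :=
  ∑ e : Fin 7, ((Finset.range 128).filter (fun s => c.testBit s = true ∧
    s.testBit e.val = true)).card ^ 2

theorem inv_mkM {c : ℕ} (hc : good c = true) : inv (mkM c) = invc c := by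
  classical
  unfold inv invc
  apply Finset.sum_congr rfl
  intro e _
  congr 1
  apply Finset.card_bij (fun S _ => enc S)
  · intro S hS
    simp only [Finset.mem_filter, Finset.mem_univ, true_and, Finset.mem_range] at hS ⊢
    refine ⟨enc_lt S, (mkM_indep hc S).1 hS.1, ?_⟩
    rw [testBit_enc]
    simp [hS.2]
  · intro S _ T _ h
    rw [← dec_enc S, ← dec_enc T, h]
  · intro s hs
    simp only [Finset.mem_filter, Finset.mem_range] at hs
    refine ⟨dec s, ?_, enc_dec hs.1⟩
    simp only [Finset.mem_filter, Finset.mem_univ, true_and]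
    exact ⟨by rw [mkM_indep hc, enc_dec hs.1]; exact hs.2.1, by rw [mem_dec]; exact hs.2.2⟩

theorem invc_nodup : (nonpav.map invc).Nodup := by decide +kernel

theorem nonpav_length : nonpav.length = 51 := by decide +kernel

theorem ncard_nonpav :
    51 ≤ {c : Set (Matroid (Fin 7)) | ∃ M : Matroid (Fin 7), M.E = univ ∧ Simp M ∧ ¬ Pav M ∧
      c = cls M}.ncard := by
  have hg : ∀ c ∈ nonpav, good c = true := by
    have := good_all
    rwa [List.all_eq_true] at this
  have hfin : {c : Set (Matroid (Fin 7)) | ∃ M : Matroid (Fin 7), M.E = univ ∧ Simp M ∧ ¬ Pav M ∧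
      c = cls M}.Finite := by
    apply ((Matroid.finite_setOfPred_matroid' (E := (univ : Set (Fin 7)))
      (Set.toFinite _)).image cls).subset
    rintro c ⟨M, hE, -, -, rfl⟩
    exact ⟨M, hE, rfl⟩
  have hnd : nonpav.Nodup := List.Nodup.of_map _ invc_nodup
  have h1 : ((nonpav.toFinset : Finset ℕ) : Set ℕ).ncard ≤
      {c : Set (Matroid (Fin 7)) | ∃ M : Matroid (Fin 7), M.E = univ ∧ Simp M ∧ ¬ Pav M ∧
      c = cls M}.ncard := by
    apply ncard_le_ncard_of_injOn (fun c => cls (mkM c)) _ _ hfin
    · intro c hc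
      have hc' : c ∈ nonpav := by simpa using hc
      exact ⟨mkM c, mkM_E c, mkM_simp (hg c hc'), mkM_not_pav (hg c hc'), rfl⟩
    · intro c hc d hd h
      have hc' : c ∈ nonpav := by simpa using hc
      have hd' : d ∈ nonpav := by simpa using hd
      simp only at h
      have h2 : mkM c ∈ cls (mkM d) := by
        rw [← h]; exact mem_cls_self (mkM_E c)
      have h3 := inv_cls h2
      rw [inv_mkM (hg c hc'), inv_mkM (hg d hd')] at h3
      exact List.inj_on_of_nodup_map invc_nodup hc' hd' h3
  rw [ncard_coe_finset, List.toFinset_card_of_nodup hnd, nonpav_length] at h1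
  exact h1

end Pool.Agent.Paving7
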