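import Pool.Agent.Paving7.Data

set_option autoImplicit false

/-!
An exhaustive search over families of `r`-subsets of a seven element set.
-/

namespace Pool.Agent.Paving7

/-- One transposition acting on 128-bit codes; the data are `(i, j, A, K, d)`. -/
def ap (t : Fin 7 × Fin 7 × ℕ × ℕ × ℕ) (D : ℕ) : ℕ :=
  (D &&& t.2.2.2.1) ||| ((D &&& t.2.2.1) <<< t.2.2.2.2) ||| ((D >>> t.2.2.2.2) &&& t.2.2.1)

/-- the three transpositions used for one extra test -/
def w3 : List (Fin 7 × Fin 7 × ℕ × ℕ × ℕ) :=
  [(0, 3, 882703934944068647116406244959191210, 226413559313153607985358201832032545365, 7),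
   (1, 4, 4153774105264976589875943145786572, 272222778206171822038257278988055229235, 14),
   (5, 6, 18446744069414584320, 340282366841710300949110269842519228415, 32)]

/-- no single or double transposition (and not the extra product) increases the code -/
def isMax (D : ℕ) : Bool :=
  tab.all (fun t => Nat.ble (ap t D) D) &&
  tab.all (fun t => tab.all (fun u => Nat.ble (ap u (ap t D)) D)) &&
  Nat.ble (w3.foldl (fun c t => ap t c) D) D

/-- at least two zeros and at least one one in the group `g` -/
def bad (ones zeros g : ℕ) : Bool :=
  !(Nat.beq (ones &&& g) 0) &&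
  (!(Nat.beq (zeros &&& g) 0) && !(Nat.beq ((zeros &&& g) ^^^ (2 ^ (zeros &&& g).log2)) 0))

/-- the highest undecided or unequal position `log2 X` is a proved increase -/
def top1 (X Y : ℕ) : Bool := !(Nat.beq X 0) && !(Nat.beq ((Y >>> X.log2) &&& 1) 0)

/-- the transposition `t` increases every code extending the decided bits -/
def symbad (F o z : ℕ) (t : Fin 7 × Fin 7 × ℕ × ℕ × ℕ) : Bool :=
  top1 (F ^^^ (F &&& ((o &&& ap t o) ||| (z &&& ap t z)))) (ap t o &&& z)

/-- exhaustive search -/
def search (F : ℕ) (leaf : ℕ → Bool) : List (ℕ × ℕ × List ℕ) → ℕ → ℕ → Bool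
  | [], ones, _ => leaf ones
  | e :: L, ones, zeros =>
    (e.2.2.any (bad (ones ||| e.2.1) zeros) || (adj.any (symbad F (ones ||| e.2.1) zeros) ||
      search F leaf L (ones ||| e.2.1) zeros)) &&
    (e.2.2.any (bad ones (zeros ||| e.2.1)) || (adj.any (symbad F ones (zeros ||| e.2.1)) ||
      search F leaf L ones (zeros ||| e.2.1)))

/-- the leaf test, with the bits `fr` of the sets of size `r` -/
def leaf (fr : ℕ) (D : ℕ) : Bool :=
  Nat.beq (D &&& fr) 0 || !(isMax D) || reps.contains D

/-- bits of the masks of size less than 2 -/
def low2 : ℕ := 18446744078004584727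
/-- bits of the masks of size 2 -/
def full2 : ℕ := 79229376568279087382969849448

/-- bits of the masks of size less than 3 -/
def low3 : ℕ := 79229376586725831460974434175
/-- bits of the masks of size 3 -/
def full3 : ℕ := 5214322623900981569529889937713280

/-- bits of the masks of size less than 4 -/
def low4 : ℕ := 5214401853277568295361350912147455
/-- bits of the masks of size 4 -/
def full4 : ℕ := 1443912986347755891193542738792448000

/-- bits of the masks of size less than 5 -/
def low5 : ℕ := 1449127388201033459488904089704595455
/-- bits of the masks of size 5 -/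
def full5 : ℕ := 29785134324701140873580755745092141056

/-- bits of the masks of size less than 6 -/
def low6 : ℕ := 31234261712902174333069659834796736511
/-- bits of the masks of size 6 -/
def full6 : ℕ := 138906921747567057398617643881087369216

/-- bits of the masks of size less than 7 -/
def low7 : ℕ := 170141183460469231731687303715884105727
/-- bits of the masks of size 7 -/
def full7 : ℕ := 170141183460469231731687303715884105728

end Pool.Agent.Paving7
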