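import Pool.Agent.Paving7.Basic

set_option autoImplicit false

/-!
Soundness of the exhaustive search.
-/

namespace Pool.Agent.Paving7

/-- the closure property of a code with respect to a group -/
def GOK (c g : ℕ) : Prop :=
  ∀ a b d : ℕ, g.testBit a = true → g.testBit b = true → g.testBit d = true → a ≠ b →
    c.testBit a = false → c.testBit b = false → c.testBit d = false

theorem exists_testBit {z : ℕ} (hz : z ≠ 0) : ∃ a, z.testBit a = true := by
  by_contra h
  push Not at h
  apply hz
  apply Nat.eq_of_testBit_eq
  intro i
  simp [h i]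

theorem ne_of_beq_false {a b : ℕ} (h : Nat.beq a b = false) : a ≠ b := by
  rintro rfl
  rw [Nat.beq_refl] at h
  exact absurd h (by simp)

theorem bad_sound {c ones zeros g : ℕ} (hc : GOK c g)
    (h1 : ∀ i, ones.testBit i = true → c.testBit i = true)
    (h0 : ∀ i, zeros.testBit i = true → c.testBit i = false) : bad ones zeros g = false := by
  by_contra hb
  rw [Bool.not_eq_false] at hb
  simp only [bad, Bool.and_eq_true, Bool.not_eq_true'] at hb
  obtain ⟨ho, hz, hz2⟩ := hb
  replace ho := ne_of_beq_false ho
  replace hz := ne_of_beq_false hz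
  replace hz2 := ne_of_beq_false hz2
  obtain ⟨d, hd⟩ := exists_testBit ho
  obtain ⟨b, hb⟩ := exists_testBit hz2
  have ha := Nat.testBit_log2 hz
  set z := zeros &&& g with hzdef
  have hab : b ≠ z.log2 := by
    rintro rfl
    rw [Nat.testBit_xor, ha, Nat.testBit_two_pow_self] at hb
    simp at hb
  have hb' : z.testBit b = true := by
    rw [Nat.testBit_xor, Nat.testBit_two_pow_of_ne (Ne.symm hab)] at hb
    simpa using hb
  rw [hzdef, Nat.testBit_and, Bool.and_eq_true] at ha hb'
  rw [Nat.testBit_and, Bool.and_eq_true] at hd
  have := hc _ _ d ha.2 hb'.2 hd.2 (Ne.symm hab) (h0 _ ha.1) (h0 _ hb'.1)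
  rw [h1 _ hd.1] at this
  exact absurd this (by simp)

/-- `c` is not increased by `t`, and `t` does not change it outside `F` -/
def SOK (F c : ℕ) (t : Fin 7 × Fin 7 × ℕ × ℕ × ℕ) : Prop :=
  okSwap t = true ∧ ap t c ≤ c ∧
    ∀ q, F.testBit q = false → c.testBit q = (ap t c).testBit q

theorem symbad_sound {F c o z : ℕ} {t : Fin 7 × Fin 7 × ℕ × ℕ × ℕ} (hc : SOK F c t)
    (h1 : ∀ i, o.testBit i = true → c.testBit i = true)
    (h0 : ∀ i, z.testBit i = true → c.testBit i = false) : symbad F o z t = false := by
  obtain ⟨ht, hle, hF⟩ := hc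
  by_contra hb
  rw [Bool.not_eq_false] at hb
  have h1' : ∀ i, (ap t o).testBit i = true → (ap t c).testBit i = true := by
    intro i hi
    by_cases hi128 : i < 128
    · rw [testBit_ap_lt ht _ hi128] at hi ⊢
      exact h1 _ hi
    · rw [testBit_ap_ge ht _ (by omega)] at hi
      exact absurd hi (by simp)
  have h0' : ∀ i, (ap t z).testBit i = true → (ap t c).testBit i = false := by
    intro i hi
    by_cases hi128 : i < 128
    · rw [testBit_ap_lt ht _ hi128] at hi ⊢
      exact h0 _ hi
    · rw [testBit_ap_ge ht _ (by omega)] at hi
      exact absurd hi (by simp)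
  simp only [symbad, top1, Bool.and_eq_true, Bool.not_eq_true'] at hb
  obtain ⟨hX, hY⟩ := hb
  replace hX := ne_of_beq_false hX
  replace hY := ne_of_beq_false hY
  set X := F ^^^ (F &&& ((o &&& ap t o) ||| (z &&& ap t z))) with hXdef
  have hY' : (ap t o &&& z).testBit X.log2 = true := by
    rw [Nat.testBit, Nat.and_comm]
    simpa using hY
  rw [Nat.testBit_and, Bool.and_eq_true] at hY'
  have ha := h1' _ hY'.1
  have hb := h0 _ hY'.2
  have hlt : c < ap t c := by
    apply Nat.lt_of_testBit X.log2 hb ha
    intro q hq
    by_cases hFq : F.testBit q = true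
    · have hXq : X.testBit q = false := by
        apply Nat.testBit_lt_two_pow
        exact lt_of_lt_of_le Nat.lt_log2_self (Nat.pow_le_pow_right (by norm_num) hq)
      rw [hXdef, Nat.testBit_xor, Nat.testBit_and, hFq, Nat.testBit_or, Nat.testBit_and,
        Nat.testBit_and] at hXq
      simp only [Bool.true_and, Bool.true_bne, Bool.not_eq_false', Bool.or_eq_true,
        Bool.and_eq_true] at hXq
      rcases hXq with ⟨h2, h3⟩ | ⟨h2, h3⟩
      · rw [h1 _ h2, h1' _ h3]
      · rw [h0 _ h2, h0' _ h3]
    · rw [Bool.not_eq_true] at hFq
      exact hF q hFq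
  omega

theorem search_sound (F : ℕ) (leaf : ℕ → Bool) (c : ℕ) (hsym : ∀ t ∈ adj, SOK F c t) :
    ∀ (L : List (ℕ × ℕ × List ℕ)) (ones zeros : ℕ),
      (∀ e ∈ L, e.2.1 = 2 ^ e.1) →
      (∀ e ∈ L, ∀ g ∈ e.2.2, GOK c g) →
      (∀ i, ones.testBit i = true → c.testBit i = true) →
      (∀ i, zeros.testBit i = true → c.testBit i = false) →
      (∀ i, c.testBit i = true → ones.testBit i = true ∨ i ∈ L.map Prod.fst) →
      search F leaf L ones zeros = true → leaf c = true := by
  intro L
  induction L with
  | nil =>
    intro ones zeros _ _ h1 _ hcov h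
    have : c = ones := by
      apply Nat.eq_of_testBit_eq
      intro i
      rw [Bool.eq_iff_iff]
      constructor
      · intro hi
        rcases hcov i hi with h | h
        · exact h
        · simp at h
      · exact h1 i
    rw [this]
    exact h
  | cons e L ih =>
    intro ones zeros hbit hg h1 h0 hcov h
    have hbe : e.2.1 = 2 ^ e.1 := hbit e (by simp)
    simp only [search, Bool.and_eq_true, Bool.or_eq_true] at h
    obtain ⟨hA, hB⟩ := h
    by_cases hce : c.testBit e.1 = true
    · -- the mask belongs to the family
      have h1' : ∀ i, (ones ||| e.2.1).testBit i = true → c.testBit i = true := by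
        intro i hi
        rw [Nat.testBit_or, Bool.or_eq_true] at hi
        rcases hi with hi | hi
        · exact h1 i hi
        · rw [hbe, Nat.testBit_two_pow, decide_eq_true_eq] at hi
          rw [← hi]; exact hce
      rcases hA with hA | hX | hA
      · exfalso
        rw [List.any_eq_true] at hA
        obtain ⟨g, hgm, hbad⟩ := hA
        rw [bad_sound (hg e (by simp) g hgm) h1' h0] at hbad
        exact absurd hbad (by simp)
      · exfalso
        rw [List.any_eq_true] at hX
        obtain ⟨t, htm, hbad⟩ := hX
        rw [symbad_sound (hsym t htm) h1' h0] at hbad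
        exact absurd hbad (by simp)
      · apply ih (ones ||| e.2.1) zeros (fun x hx => hbit x (by simp [hx]))
          (fun x hx => hg x (by simp [hx])) h1' h0 _ hA
        intro i hi
        rcases hcov i hi with h | h
        · left; rw [Nat.testBit_or, h]; simp
        · rw [List.map_cons, List.mem_cons] at h
          rcases h with h | h
          · left; rw [Nat.testBit_or, hbe, h, Nat.testBit_two_pow_self]; simp
          · right; exact h
    · rw [Bool.not_eq_true] at hce
      have h0' : ∀ i, (zeros ||| e.2.1).testBit i = true → c.testBit i = false := by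
        intro i hi
        rw [Nat.testBit_or, Bool.or_eq_true] at hi
        rcases hi with hi | hi
        · exact h0 i hi
        · rw [hbe, Nat.testBit_two_pow, decide_eq_true_eq] at hi
          rw [← hi]; exact hce
      rcases hB with hB | hX | hB
      · exfalso
        rw [List.any_eq_true] at hB
        obtain ⟨g, hgm, hbad⟩ := hB
        rw [bad_sound (hg e (by simp) g hgm) h1 h0'] at hbad
        exact absurd hbad (by simp)
      · exfalso
        rw [List.any_eq_true] at hX
        obtain ⟨t, htm, hbad⟩ := hX
        rw [symbad_sound (hsym t htm) h1 h0'] at hbad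
        exact absurd hbad (by simp)
      · apply ih ones (zeros ||| e.2.1) (fun x hx => hbit x (by simp [hx]))
          (fun x hx => hg x (by simp [hx])) h1 h0' _ hB
        intro i hi
        rcases hcov i hi with h | h
        · left; exact h
        · rw [List.map_cons, List.mem_cons] at h
          rcases h with h | h
          · rw [h, hce] at hi; exact absurd hi (by simp)
          · right; exact h

end Pool.Agent.Paving7
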