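import Pool.Agent.Paving7.Basic
import Pool.Agent.Paving7.Sound

set_option autoImplicit false

/-!
Structure of simple paving matroids on `Fin 7`, and the search tables.
-/

namespace Pool.Agent.Paving7

open Set

/-- all sets with at most two elements are independent -/
def Simp (M : Matroid (Fin 7)) : Prop := ∀ S : Finset (Fin 7), S.card ≤ 2 → M.Indep (S : Set (Fin 7))

/-- every dependent set is at least as large as every independent set -/
def Pav (M : Matroid (Fin 7)) : Prop :=
  ∀ S T : Finset (Fin 7), ¬ M.Indep (S : Set (Fin 7)) → M.Indep (T : Set (Fin 7)) →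
    T.card ≤ S.card

theorem exists_coe (I : Set (Fin 7)) : ∃ S : Finset (Fin 7), (S : Set (Fin 7)) = I :=
  ⟨I.toFinite.toFinset, by simp⟩

theorem simp_iff {M : Matroid (Fin 7)} (hE : M.E = univ) :
    (∀ C : Set (Fin 7), M.IsCircuit C → 3 ≤ C.ncard) ↔ Simp M := by
  constructor
  · intro h S hS
    by_contra hI
    have hD : M.Dep (S : Set (Fin 7)) := ⟨hI, by rw [hE]; exact subset_univ _⟩
    obtain ⟨C, hCS, hC⟩ := hD.exists_isCircuit_subset
    have h1 := h C hC
    have h2 : C.ncard ≤ (S : Set (Fin 7)).ncard := ncard_le_ncard hCS (Set.toFinite _)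
    rw [ncard_coe_finset] at h2
    omega
  · intro h C hC
    by_contra hlt
    obtain ⟨S, rfl⟩ := exists_coe C
    rw [ncard_coe_finset] at hlt
    exact hC.not_indep (h S (by omega))

theorem pav_iff {M : Matroid (Fin 7)} (hE : M.E = univ) :
    (∀ C B : Set (Fin 7), M.IsCircuit C → M.IsBase B → B.ncard ≤ C.ncard) ↔ Pav M := by
  constructor
  · intro h S T hS hT
    have hD : M.Dep (S : Set (Fin 7)) := ⟨hS, by rw [hE]; exact subset_univ _⟩
    obtain ⟨C, hCS, hC⟩ := hD.exists_isCircuit_subset
    obtain ⟨B, hB, hTB⟩ := hT.exists_isBase_superset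
    have h1 := h C B hC hB
    have h2 : C.ncard ≤ (S : Set (Fin 7)).ncard := ncard_le_ncard hCS (Set.toFinite _)
    have h3 : (T : Set (Fin 7)).ncard ≤ B.ncard := ncard_le_ncard hTB (Set.toFinite _)
    rw [ncard_coe_finset] at h2 h3
    omega
  · intro h C B hC hB
    obtain ⟨S, rfl⟩ := exists_coe C
    obtain ⟨T, rfl⟩ := exists_coe B
    rw [ncard_coe_finset, ncard_coe_finset]
    exact h S T hC.not_indep hB.indep

theorem dep_group {M : Matroid (Fin 7)} (hP : Pav M) {r : ℕ} {U A B D : Finset (Fin 7)}
    (hU : U.card = r + 1) (hA : A ⊆ U) (hB : B ⊆ U) (hD : D ⊆ U) (hAc : A.card = r)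
    (hBc : B.card = r) (hDc : D.card = r) (hAB : A ≠ B) (hAi : ¬ M.Indep (A : Set (Fin 7)))
    (hBi : ¬ M.Indep (B : Set (Fin 7))) : ¬ M.Indep (D : Set (Fin 7)) := by
  intro hDi
  have h1 := Finset.card_union_add_card_inter A B
  have h2 : (A ∪ B).card ≤ r + 1 := by
    rw [← hU]; exact Finset.card_le_card (Finset.union_subset hA hB)
  have h3 : r < (A ∪ B).card := by
    rw [← hAc]
    apply Finset.card_lt_card
    rw [Finset.ssubset_iff_subset_ne]
    refine ⟨Finset.subset_union_left, fun h => hAB ?_⟩
    have hBA : B ⊆ A := by rw [h]; exact Finset.subset_union_right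
    exact (Finset.eq_of_subset_of_card_le hBA (by omega)).symm
  have h4 : (A ∪ B) = U := Finset.eq_of_subset_of_card_le (Finset.union_subset hA hB) (by omega)
  have hI : M.Indep ((A ∩ B : Finset (Fin 7)) : Set (Fin 7)) := by
    by_contra hI
    have := hP _ _ hI hDi
    omega
  obtain ⟨e, heD, heI, hins⟩ := hI.augment_finset hDi (by omega)
  have heU : e ∈ A ∪ B := by rw [h4]; exact hD heD
  have hcard : (insert e (A ∩ B)).card = r := by
    rw [Finset.card_insert_of_notMem heI]; omega
  rw [Finset.mem_union] at heU
  rcases heU with he | he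
  · have : insert e (A ∩ B) = A :=
      Finset.eq_of_subset_of_card_le
        (Finset.insert_subset he Finset.inter_subset_left) (by omega)
    rw [← Finset.coe_insert, this] at hins
    exact hAi hins
  · have : insert e (A ∩ B) = B :=
      Finset.eq_of_subset_of_card_le
        (Finset.insert_subset he Finset.inter_subset_right) (by omega)
    rw [← Finset.coe_insert, this] at hins
    exact hBi hins

/-- number of bits of a seven bit mask -/
def pcn (s : ℕ) : ℕ := ((List.range 7).filter (fun i => s.testBit i)).length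

theorem card_dec_aux : ∀ s : Fin 128, (dec s.val).card = pcn s.val := by decide +kernel

theorem card_dec {s : ℕ} (hs : s < 128) : (dec s).card = pcn s := card_dec_aux ⟨s, hs⟩

theorem dec_subset {a u : ℕ} (h : a &&& u = a) : dec a ⊆ dec u := by
  intro i hi
  rw [mem_dec] at hi ⊢
  rw [← h, Nat.testBit_and, Bool.and_eq_true] at hi
  exact hi.2

/-- correctness check of a search table -/
def okTab (r : ℕ) (L : List (ℕ × ℕ × List ℕ)) : Bool :=
  L.all (fun e => Nat.beq e.2.1 (2 ^ e.1) &&
    e.2.2.all (fun g => Nat.blt g (2 ^ 128) && (List.range 128).any (fun u =>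
      Nat.beq (pcn u) (r + 1) && (List.range 128).all (fun a => !(g.testBit a) ||
        (Nat.beq (pcn a) r && Nat.beq (a &&& u) a))))) &&
  (List.range 128).all (fun s => !(Nat.beq (pcn s) r) || (L.map Prod.fst).contains s)

/-- correctness check of the low bits -/
def okLow (r lo fu : ℕ) : Bool :=
  Nat.blt lo (2 ^ 128) && Nat.blt fu (2 ^ 128) && (List.range 128).all (fun s =>
    (lo.testBit s == Nat.blt (pcn s) r) && (fu.testBit s == Nat.beq (pcn s) r))

theorem okTab7 : okTab 7 L7 = true := by decide +kernel
theorem okTab6 : okTab 6 L6 = true := by decide +kernel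
theorem okTab5 : okTab 5 L5 = true := by decide +kernel
theorem okTab4 : okTab 4 L4 = true := by decide +kernel
theorem okTab3 : okTab 3 L3 = true := by decide +kernel
theorem okLow7 : okLow 7 low7 full7 = true := by decide +kernel
theorem okLow6 : okLow 6 low6 full6 = true := by decide +kernel
theorem okLow5 : okLow 5 low5 full5 = true := by decide +kernel
theorem okLow4 : okLow 4 low4 full4 = true := by decide +kernel
theorem okLow3 : okLow 3 low3 full3 = true := by decide +kernel

/-- all groups of the table satisfy the closure property -/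
theorem gok_of_tab {M : Matroid (Fin 7)} (hP : Pav M) {r : ℕ} {L : List (ℕ × ℕ × List ℕ)}
    (ht : okTab r L = true) {e : ℕ × ℕ × List ℕ} (he : e ∈ L) {g : ℕ} (hg : g ∈ e.2.2) :
    GOK (code M) g := by
  simp only [okTab, Bool.and_eq_true, List.all_eq_true] at ht
  obtain ⟨h1, -⟩ := ht
  obtain ⟨-, h2⟩ := h1 e he
  obtain ⟨hlt, hu⟩ := h2 g hg
  rw [Nat.blt_eq] at hlt
  rw [List.any_eq_true] at hu
  obtain ⟨u, hu128, hu1⟩ := hu
  simp only [Bool.and_eq_true, List.all_eq_true, List.mem_range, Bool.or_eq_true,
    Bool.not_eq_true', Nat.beq_eq] at hu1 hu128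
  obtain ⟨hur, hall⟩ := hu1
  have key : ∀ a, g.testBit a = true → a < 128 ∧ (dec a).card = r ∧ dec a ⊆ dec u := by
    intro a ha
    have ha128 : a < 128 := by
      by_contra h
      have : g.testBit a = false := by
        apply Nat.testBit_lt_two_pow
        exact lt_of_lt_of_le hlt (Nat.pow_le_pow_right (by norm_num) (by omega))
      rw [ha] at this
      exact absurd this (by simp)
    rcases hall a ha128 with h | h
    · rw [ha] at h; exact absurd h (by simp)
    · exact ⟨ha128, by rw [card_dec ha128]; exact h.1, dec_subset h.2⟩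
  intro a b d ha hb hd hab hca hcb
  obtain ⟨ha128, hac, hau⟩ := key a ha
  obtain ⟨hb128, hbc, hbu⟩ := key b hb
  obtain ⟨hd128, hdc, hdu⟩ := key d hd
  rw [Bool.eq_false_iff] at hca hcb ⊢
  rw [Ne, testBit_code M ha128] at hca
  rw [Ne, testBit_code M hb128] at hcb
  rw [Ne, testBit_code M hd128]
  refine dep_group hP (U := dec u) (by rw [card_dec hu128]; exact hur) hau hbu hdu hac hbc hdc
    ?_ hca hcb
  intro h
  apply hab
  rw [← enc_dec ha128, ← enc_dec hb128, h]

theorem card_dec_swm {i j : Fin 7} (hij : i ≠ j) (s : ℕ) :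
    (dec (swm i j s)).card = (dec s).card := by
  have h := dec_swm hij s
  have h2 : ((dec (swm i j s) : Finset (Fin 7)) : Set (Fin 7)).ncard =
      ((dec s : Finset (Fin 7)) : Set (Fin 7)).ncard := by
    rw [h]
    exact Set.ncard_image_of_injective _ (Equiv.injective _)
  rwa [ncard_coe_finset, ncard_coe_finset] at h2

/-- away from level `r`, the code of a paving matroid of rank `r` is determined -/
theorem level_iff {M : Matroid (Fin 7)} (hP : Pav M) {r : ℕ}
    {B : Finset (Fin 7)} (hB : M.Indep (B : Set (Fin 7))) (hBc : B.card = r)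
    (hmax : ∀ T : Finset (Fin 7), M.Indep (T : Set (Fin 7)) → T.card ≤ r)
    {q : ℕ} (hq : q < 128) (hr : (dec q).card ≠ r) :
    (code M).testBit q = true ↔ (dec q).card < r := by
  rw [testBit_code M hq]
  constructor
  · intro h
    have := hmax _ h
    omega
  · intro h
    by_contra hI
    have := hP _ _ hI hB
    omega

theorem sok {M : Matroid (Fin 7)} (hP : Pav M) {r lo fu : ℕ}
    (hl : okLow r lo fu = true)
    {B : Finset (Fin 7)} (hB : M.Indep (B : Set (Fin 7))) (hBc : B.card = r)
    (hmax : ∀ T : Finset (Fin 7), M.Indep (T : Set (Fin 7)) → T.card ≤ r)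
    {t : Fin 7 × Fin 7 × ℕ × ℕ × ℕ} (ht : okSwap t = true)
    (hle : ap t (code M) ≤ code M) : SOK fu (code M) t := by
  refine ⟨ht, hle, fun q hq => ?_⟩
  simp only [okLow, Bool.and_eq_true, List.all_eq_true, List.mem_range, Nat.blt_eq,
    beq_iff_eq] at hl
  obtain ⟨⟨hlo, hfu⟩, hlf⟩ := hl
  by_cases hq128 : q < 128
  · have h1 : (dec q).card ≠ r := by
      intro h
      rw [(hlf q hq128).2, ← card_dec hq128, h, Nat.beq_refl] at hq
      exact absurd hq (by simp)
    have hne := okSwap_ne ht
    rw [testBit_ap_lt ht _ hq128, Bool.eq_iff_iff, level_iff hP hB hBc hmax hq128 h1,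
      level_iff hP hB hBc hmax (swm_lt hq128) (by rw [card_dec_swm hne]; exact h1),
      card_dec_swm hne]
  · rw [testBit_code_ge _ (by omega), testBit_ap_ge ht _ (by omega)]

/-- the search classifies the codes of simple paving matroids of rank `r` -/
theorem leaf_code {M : Matroid (Fin 7)} (hP : Pav M) {r lo fu : ℕ} {L : List (ℕ × ℕ × List ℕ)}
    (ht : okTab r L = true) (hl : okLow r lo fu = true)
    (hs : search fu (leaf fu) L lo 0 = true)
    (hsym : ∀ t ∈ adj, SOK fu (code M) t)
    {B : Finset (Fin 7)} (hB : M.Indep (B : Set (Fin 7))) (hBc : B.card = r)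
    (hmax : ∀ T : Finset (Fin 7), M.Indep (T : Set (Fin 7)) → T.card ≤ r)
    (hM : isMax (code M) = true) : code M ∈ reps := by
  have ht' := ht
  simp only [okTab, Bool.and_eq_true, List.all_eq_true, List.mem_range, Bool.or_eq_true,
    Bool.not_eq_true', Nat.beq_eq] at ht'
  obtain ⟨htab, hcov⟩ := ht'
  simp only [okLow, Bool.and_eq_true, List.all_eq_true, List.mem_range, Nat.blt_eq,
    beq_iff_eq] at hl
  obtain ⟨⟨hlo, hfu⟩, hlf⟩ := hl
  have hleaf : leaf fu (code M) = true := by
    apply search_sound fu (leaf fu) (code M) hsym L lo 0 (fun e he => (htab e he).1)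
      (fun e he g hg => gok_of_tab hP ht he hg) _ _ _ hs
    · intro i hi
      have hi128 : i < 128 := by
        by_contra h
        have : lo.testBit i = false := by
          apply Nat.testBit_lt_two_pow
          exact lt_of_lt_of_le hlo (Nat.pow_le_pow_right (by norm_num) (by omega))
        rw [hi] at this
        exact absurd this (by simp)
      rw [testBit_code M hi128]
      have h1 := (hlf i hi128).1
      rw [hi] at h1
      have h2 : pcn i < r := by rw [← Nat.blt_eq]; exact h1.symm
      by_contra hI
      have h3 := hP _ _ hI hB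
      rw [card_dec hi128] at h3
      omega
    · intro i hi
      simp at hi
    · intro i hi
      have hi128 : i < 128 := by
        by_contra h
        rw [testBit_code_ge M (by omega)] at hi
        exact absurd hi (by simp)
      have hI := (testBit_code M hi128).1 hi
      have h1 := hmax _ hI
      rw [card_dec hi128] at h1
      rcases Nat.lt_or_ge (pcn i) r with h2 | h2
      · left
        rw [(hlf i hi128).1, Nat.blt_eq]
        exact h2
      · right
        have h3 : pcn i = r := by omega
        rcases hcov i hi128 with h4 | h4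
        · exfalso
          have := ne_of_beq_false h4
          exact this h3
        · simpa using h4
  simp only [leaf, Bool.or_eq_true, Bool.not_eq_true', Nat.beq_eq] at hleaf
  rcases hleaf with (h | h) | h
  · exfalso
    have h1 : (code M &&& fu).testBit (enc B) = true := by
      rw [Nat.testBit_and, Bool.and_eq_true]
      refine ⟨(testBit_code_enc M B).2 hB, ?_⟩
      rw [(hlf _ (enc_lt B)).2, Nat.beq_eq, ← card_dec (enc_lt B), dec_enc]
      exact hBc
    rw [h] at h1
    simp at h1
  · rw [hM] at h; exact absurd h (by simp)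
  · simpa using h

end Pool.Agent.Paving7
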